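import Pool.Agent.helper61.DP.SpecA

/-!
Module CX of project dp: boxes and exteriors are connected, inner and outer neighbours.
-/

set_option autoImplicit false

namespace DP

theorem CX_hor {W : Set V} (j i i' : ℤ)
    (h : ∀ t, (i ≤ t ∧ t ≤ i') ∨ (i' ≤ t ∧ t ≤ i) → (t, j) ∈ W) : Con W (i, j) (i', j) := by
  rcases le_total i i' with hi | hi
  · exact con_horiz j i i' hi fun t h1 h2 => h t (Or.inl ⟨h1, h2⟩)
  · exact (con_horiz j i' i hi fun t h1 h2 => h t (Or.inr ⟨h1, h2⟩)).symm

theorem CX_ver {W : Set V} (i j j' : ℤ)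
    (h : ∀ t, (j ≤ t ∧ t ≤ j') ∨ (j' ≤ t ∧ t ≤ j) → (i, t) ∈ W) : Con W (i, j) (i, j') := by
  rcases le_total j j' with hi | hi
  · exact con_vert i j j' hi fun t h1 h2 => h t (Or.inl ⟨h1, h2⟩)
  · exact (con_vert i j' j hi fun t h1 h2 => h t (Or.inr ⟨h1, h2⟩)).symm

theorem CX_ext (x : V) (n : ℕ) (u : V) (hu : n ≤ sd x u) :
    Con {w | n ≤ sd x w} u (x.1 + n, x.2 + n) := by
  obtain ⟨a, b⟩ := u
  obtain ⟨p, q⟩ := x
  simp only [sd] at hu
  rcases le_or_gt n (p - a).natAbs with h | h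
  · have h1 : Con {w : V | n ≤ sd (p, q) w} (a, b) (a, q + n) := by
      apply CX_ver
      intro t _
      simp only [Set.mem_ofPred_eq, sd]
      omega
    have h2 : Con {w : V | n ≤ sd (p, q) w} (a, q + n) (p + n, q + n) := by
      apply CX_hor
      intro t _
      simp only [Set.mem_ofPred_eq, sd]
      omega
    exact h1.trans h2
  · have h1 : Con {w : V | n ≤ sd (p, q) w} (a, b) (p + n, b) := by
      apply CX_hor
      intro t _
      simp only [Set.mem_ofPred_eq, sd]
      omega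
    have h2 : Con {w : V | n ≤ sd (p, q) w} (p + n, b) (p + n, q + n) := by
      apply CX_ver
      intro t _
      simp only [Set.mem_ofPred_eq, sd]
      omega
    exact h1.trans h2

theorem CX : CX_stmt := by
  refine ⟨?_, ?_, ?_, ?_⟩
  · rintro ⟨p, q⟩ n ⟨a, b⟩ ⟨a', b'⟩ hu hv
    simp only [box, Set.mem_ofPred_eq, sd] at hu hv
    have h1 : Con (box (p, q) n) (a, b) (a', b) := by
      apply CX_hor
      intro t ht
      simp only [box, Set.mem_ofPred_eq, sd]
      omega
    have h2 : Con (box (p, q) n) (a', b) (a', b') := by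
      apply CX_ver
      intro t ht
      simp only [box, Set.mem_ofPred_eq, sd]
      omega
    exact h1.trans h2
  · intro x n u v _ hu hv
    exact (CX_ext x n u hu).trans (CX_ext x n v hv).symm
  · rintro ⟨p, q⟩ n ⟨a, b⟩ hx hu
    rw [Int.even_iff] at hx
    simp only [bd, Set.mem_ofPred_eq, sd] at hu hx
    refine ⟨(if a = p + (n + 1) then a - 1 else if a = p - (n + 1) then a + 1 else a,
      if b = q + (n + 1) then b - 1 else if b = q - (n + 1) then b + 1 else b), ?_, ?_⟩
    · simp only [bd, Set.mem_ofPred_eq, sd]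
      split_ifs <;> omega
    · rw [adj_iff]
      split_ifs <;> refine ⟨?_, ?_, ?_⟩ <;> dsimp only <;> omega
  · rintro ⟨p, q⟩ n ⟨a, b⟩ hx hu
    simp only [bd, Set.mem_ofPred_eq, sd] at hu
    by_cases h1 : a = p + n
    · refine ⟨(a + 1, b), ?_, ?_⟩
      · simp only [bd, Set.mem_ofPred_eq, sd]
        omega
      · rw [adj_iff]
        refine ⟨?_, ?_, ?_⟩ <;> dsimp only <;> omega
    by_cases h2 : a = p - n
    · refine ⟨(a - 1, b), ?_, ?_⟩
      · simp only [bd, Set.mem_ofPred_eq, sd]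
        omega
      · rw [adj_iff]
        refine ⟨?_, ?_, ?_⟩ <;> dsimp only <;> omega
    by_cases h3 : b = q + n
    · refine ⟨(a, b + 1), ?_, ?_⟩
      · simp only [bd, Set.mem_ofPred_eq, sd]
        omega
      · rw [adj_iff]
        refine ⟨?_, ?_, ?_⟩ <;> dsimp only <;> omega
    · refine ⟨(a, b - 1), ?_, ?_⟩
      · simp only [bd, Set.mem_ofPred_eq, sd]
        omega
      · rw [adj_iff]
        refine ⟨?_, ?_, ?_⟩ <;> dsimp only <;> omega

end DP
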